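import Mathlib
import Pool.Agent.R279.BPB.Proof

set_option autoImplicit false

/-!
# Q1 of MP_7e7193_an is true

For every real Banach space `X` and every `ε ∈ (0,2)`, the Bishop-Phelps-Bollobás modulus for
real-valued functionals satisfies `Φ^S(X, ℝ, ε) ≤ min {√(2ε), 1}`.
-/

namespace Pool.Agent.Results.MP_7e7193_an.Modulus

open Pool.Agent.R279.BPB

/-- `Φ^S(X, ℝ, ε) ≤ min {√(2ε), 1}` for every real Banach space `X ≠ 0` and `0 < ε < 2`; moreover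
every `δ > min {√(2ε), 1}` belongs to the set whose infimum is `Φ^S(X, ℝ, ε)` -/
theorem result (X : Type*) [NormedAddCommGroup X] [NormedSpace ℝ X] [CompleteSpace X]
    [Nontrivial X] (ε : ℝ) (_h0 : 0 < ε) (_h2 : ε < 2) :
    Phi X ε ≤ min √(2 * ε) 1 ∧
    ∀ δ : ℝ, min √(2 * ε) 1 < δ → ∀ (x : X) (f : StrongDual ℝ X), ‖x‖ = 1 → ‖f‖ = 1 → 1 - ε < f x →
      ∃ (y : X) (g : StrongDual ℝ X), ‖y‖ = 1 ∧ ‖g‖ = 1 ∧ |g y| = 1 ∧ ‖x - y‖ < δ ∧ ‖f - g‖ < δ :=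
  ⟨phi_le _h0, fun _ hδ => prop_of_gt _h0 hδ⟩

end Pool.Agent.Results.MP_7e7193_an.Modulus
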